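import Mathlib

/-!
The linear algebra behind the quartic example: a family of `m ≤ 2 n - 2` vectors cannot have the
fourth moments `[t ^ (2 n + 1)] w_a w_b w_c w_d`, `w_a = t ^ a + v_a`.
-/

namespace Pool.Agent.KS6_2.WR

open Polynomial Finset

/-- `t ^ a + v_a` -/
noncomputable def wp (v : ℕ → ℂ) (a : ℕ) : ℂ[X] := X ^ a + C (v a)

lemma wp_natDegree (v : ℕ → ℂ) {a : ℕ} (_ : 1 ≤ a) : (wp v a).natDegree = a := by
  unfold wp
  rw [natDegree_X_pow_add_C]

lemma wp_coeff_self (v : ℕ → ℂ) {a : ℕ} (ha : 1 ≤ a) : (wp v a).coeff a = 1 := by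
  unfold wp
  rw [coeff_add, coeff_X_pow_self, coeff_C, if_neg (by omega), add_zero]

/-- first index of the pair of weight `k` -/
def al (n k : ℕ) : ℕ := max 1 (k - n)
/-- second index of the pair of weight `k` -/
def be (n k : ℕ) : ℕ := k - al n k

lemma al_ge (n k : ℕ) : 1 ≤ al n k := le_max_left _ _

lemma al_le {n k : ℕ} (hn : 1 ≤ n) (hk : k ≤ 2 * n) : al n k ≤ n := by
  unfold al; omega

lemma be_ge {n k : ℕ} (hn : 2 ≤ n) (hk : 2 ≤ k) : 1 ≤ be n k := by
  unfold be al; omega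

lemma be_le {n k : ℕ} : be n k ≤ n := by
  unfold be al; omega

lemma al_add_be {n k : ℕ} (hn : 2 ≤ n) (hk : 2 ≤ k) : al n k + be n k = k := by
  unfold be al; omega

/-- the polynomials `T_k` -/
noncomputable def Tp (v : ℕ → ℂ) (n k : ℕ) : ℂ[X] := wp v (al n k) * wp v (be n k)

lemma Tp_natDegree_le (v : ℕ → ℂ) {n k : ℕ} (hn : 2 ≤ n) (hk : 2 ≤ k) :
    (Tp v n k).natDegree ≤ k := by
  unfold Tp
  refine natDegree_mul_le.trans ?_
  rw [wp_natDegree v (al_ge n k), wp_natDegree v (be_ge hn hk), al_add_be hn hk]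

lemma Tp_coeff_self (v : ℕ → ℂ) {n k : ℕ} (hn : 2 ≤ n) (hk : 2 ≤ k) :
    (Tp v n k).coeff k = 1 := by
  have h := coeff_mul_add_eq_of_natDegree_le (wp_natDegree v (al_ge n k)).le
    (wp_natDegree v (be_ge hn hk)).le
  rw [al_add_be hn hk, wp_coeff_self v (al_ge n k), wp_coeff_self v (be_ge hn hk), one_mul] at h
  exact h

section
variable (n m : ℕ) (v : ℕ → ℂ) (p : Fin m → ℕ → ℂ)

/-- the hypothesis on the moments -/
def Mom : Prop := ∀ a b c d, 1 ≤ a → a ≤ n → 1 ≤ b → b ≤ n → 1 ≤ c → c ≤ n → 1 ≤ d → d ≤ n →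
  ∑ i, p i a * p i b * p i c * p i d = (wp v a * wp v b * wp v c * wp v d).coeff (2 * n + 1)

variable {n m v p}

/-- the test of a polynomial against the products -/
def Orth (n : ℕ) (v : ℕ → ℂ) (P : ℂ[X]) : Prop := ∀ c d, 1 ≤ c → c ≤ n → 1 ≤ d → d ≤ n →
  (P * wp v c * wp v d).coeff (2 * n + 1) = 0

lemma top_zero {P : ℂ[X]} (hn : 2 ≤ n) (hP : Orth n v P) {D : ℕ} (hD1 : 2 ≤ D)
    (hD2 : D ≤ 2 * n - 1) (hdeg : P.natDegree ≤ D) : P.coeff D = 0 := by
  have h1 := hP (al n (2 * n + 1 - D)) (be n (2 * n + 1 - D)) (al_ge _ _)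
    (al_le (by omega) (by omega)) (be_ge hn (by omega)) be_le
  rw [mul_assoc] at h1
  have h2 := coeff_mul_add_eq_of_natDegree_le hdeg (Tp_natDegree_le v hn (k := 2 * n + 1 - D) (by omega))
  rw [Tp_coeff_self v hn (by omega), mul_one, show D + (2 * n + 1 - D) = 2 * n + 1 by omega] at h2
  rw [← h2]
  exact h1

/-- the combination of the `T_k` -/
noncomputable def comb (v : ℕ → ℂ) (n N : ℕ) (x : ℕ → ℂ) : ℂ[X] :=
  ∑ j ∈ range N, C (x j) * Tp v n (j + 2)

lemma comb_natDegree (hn : 2 ≤ n) (N : ℕ) (x : ℕ → ℂ) : (comb v n N x).natDegree ≤ N + 1 := by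
  unfold comb
  apply natDegree_sum_le_of_forall_le
  intro j hj
  rw [Finset.mem_range] at hj
  refine (natDegree_C_mul_le _ _).trans ((Tp_natDegree_le v hn (by omega)).trans (by omega))

lemma comb_coeff (hn : 2 ≤ n) (N : ℕ) (x : ℕ → ℂ) :
    (comb v n (N + 1) x).coeff (N + 2) = x N := by
  unfold comb
  rw [Finset.sum_range_succ, coeff_add]
  have h1 : (∑ j ∈ range N, C (x j) * Tp v n (j + 2)).coeff (N + 2) = 0 :=
    coeff_eq_zero_of_natDegree_lt (lt_of_le_of_lt (comb_natDegree hn N x) (by omega))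
  rw [h1, zero_add, coeff_C_mul, Tp_coeff_self v hn (by omega), mul_one]

lemma comb_zero (hn : 2 ≤ n) (x : ℕ → ℂ) (N : ℕ) (hN : N ≤ 2 * n - 2)
    (h : Orth n v (comb v n N x)) : ∀ j < N, x j = 0 := by
  induction N with
  | zero => intro j hj; omega
  | succ N ih =>
    have h1 : x N = 0 := by
      rw [← comb_coeff (v := v) hn N x]
      exact top_zero hn h (by omega) (by omega) (comb_natDegree hn _ x)
    have h2 : comb v n (N + 1) x = comb v n N x := by
      unfold comb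
      rw [Finset.sum_range_succ, h1]
      simp
    intro j hj
    rw [h2] at h
    rcases Nat.lt_succ_iff_lt_or_eq.1 hj with hj | rfl
    · exact ih (by omega) h j hj
    · exact h1

lemma mom_comb (hn : 2 ≤ n) (hM : Mom n m v p) (N : ℕ) (hN : N ≤ 2 * n - 1) (x : ℕ → ℂ)
    (c d : ℕ) (hc1 : 1 ≤ c) (hc : c ≤ n) (hd1 : 1 ≤ d) (hd : d ≤ n) :
    (comb v n N x * wp v c * wp v d).coeff (2 * n + 1)
      = ∑ i, (∑ j ∈ range N, x j * (p i (al n (j + 2)) * p i (be n (j + 2)))) * (p i c * p i d) := by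
  unfold comb
  rw [Finset.sum_mul, Finset.sum_mul, finsetSum_coeff]
  simp only [Finset.sum_mul]
  rw [Finset.sum_comm]
  apply Finset.sum_congr rfl
  intro j hj
  rw [Finset.mem_range] at hj
  have h1 : (C (x j) * Tp v n (j + 2) * wp v c * wp v d)
      = C (x j) * (wp v (al n (j + 2)) * wp v (be n (j + 2)) * wp v c * wp v d) := by
    unfold Tp; ring
  rw [h1, coeff_C_mul, ← hM _ _ _ _ (al_ge _ _) (al_le (by omega) (by omega))
    (be_ge hn (by omega)) be_le hc1 hc hd1 hd, Finset.mul_sum]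
  apply Finset.sum_congr rfl
  intro i _
  ring

/-- the map from coefficients to vectors -/
noncomputable def Phi (n m : ℕ) (p : Fin m → ℕ → ℂ) (N : ℕ) : (Fin N → ℂ) →ₗ[ℂ] (Fin m → ℂ) where
  toFun x := fun i => ∑ j : Fin N, x j * (p i (al n (j + 2)) * p i (be n (j + 2)))
  map_add' x y := by
    funext i
    simp only [Pi.add_apply, add_mul, Finset.sum_add_distrib]
  map_smul' c x := by
    funext i
    simp only [Pi.smul_apply, smul_eq_mul, RingHom.id_apply, Finset.mul_sum, mul_assoc]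

lemma Phi_eq (N : ℕ) (x : Fin N → ℂ) (i : Fin m) :
    Phi n m p N x i = ∑ j ∈ range N, (if h : j < N then x ⟨j, h⟩ else 0) *
      (p i (al n (j + 2)) * p i (be n (j + 2))) := by
  rw [← Fin.sum_univ_eq_sum_range (fun j => (if h : j < N then x ⟨j, h⟩ else 0) *
      (p i (al n (j + 2)) * p i (be n (j + 2)))) N]
  show ∑ j : Fin N, _ = _
  apply Finset.sum_congr rfl
  intro j _
  simp

lemma orth_of_ker (hn : 2 ≤ n) (hM : Mom n m v p) (N : ℕ) (hN : N ≤ 2 * n - 1) (x : Fin N → ℂ)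
    (hx : Phi n m p N x = 0) :
    Orth n v (comb v n N (fun j => if h : j < N then x ⟨j, h⟩ else 0)) := by
  intro c d hc1 hc hd1 hd
  rw [mom_comb hn hM N hN _ c d hc1 hc hd1 hd]
  apply Finset.sum_eq_zero
  intro i _
  rw [← Phi_eq, hx]
  simp

lemma Phi_inj (hn : 2 ≤ n) (hM : Mom n m v p) :
    Function.Injective (Phi n m p (2 * n - 2)) := by
  rw [injective_iff_map_eq_zero]
  intro x hx
  have h1 := comb_zero hn _ (2 * n - 2) le_rfl (orth_of_ker hn hM _ (by omega) x hx)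
  funext j
  have := h1 j j.2
  simpa using this

lemma Phi_surj (hn : 2 ≤ n) (hM : Mom n m v p) (hm : m ≤ 2 * n - 2) :
    Function.Surjective (Phi n m p (2 * n - 2)) := by
  have h1 := LinearMap.finrank_le_finrank_of_injective (Phi_inj hn hM)
  simp only [Module.finrank_fin_fun] at h1
  have h2 : Module.finrank ℂ (Fin (2 * n - 2) → ℂ) = Module.finrank ℂ (Fin m → ℂ) := by
    simp only [Module.finrank_fin_fun]; omega
  exact (LinearMap.injective_iff_surjective_of_finrank_eq_finrank h2).1 (Phi_inj hn hM)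

/-- a vector orthogonal to all the products vanishes -/
lemma vec_zero (hn : 2 ≤ n) (hM : Mom n m v p) (hm : m ≤ 2 * n - 2) (y : Fin m → ℂ)
    (hy : ∀ c d, 1 ≤ c → c ≤ n → 1 ≤ d → d ≤ n → ∑ i, y i * (p i c * p i d) = 0) : y = 0 := by
  funext i
  obtain ⟨x, hx⟩ := Phi_surj hn hM hm (Pi.single i 1)
  have h1 : ∑ k, y k * (Pi.single i (1 : ℂ) : Fin m → ℂ) k = y i := by
    simp [Pi.single_apply]
  rw [← hx] at h1
  rw [← h1]
  have h2 : ∀ k, y k * Phi n m p (2 * n - 2) x k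
      = ∑ j : Fin (2 * n - 2), x j * (y k * (p k (al n (j + 2)) * p k (be n (j + 2)))) := by
    intro k
    show y k * (∑ j : Fin (2 * n - 2), _) = _
    rw [Finset.mul_sum]
    apply Finset.sum_congr rfl
    intro j _
    ring
  rw [Finset.sum_congr rfl fun k _ => h2 k, Finset.sum_comm]
  apply Finset.sum_eq_zero
  intro j _
  rw [← Finset.mul_sum, hy _ _ (al_ge _ _) (al_le (by omega) (by have := j.2; omega))
    (be_ge hn (by omega)) be_le, mul_zero]

/-- existence of the exceptional polynomial -/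
lemma exists_P (hn : 2 ≤ n) (hM : Mom n m v p) (hm : m ≤ 2 * n - 2) :
    ∃ x : ℕ → ℂ, Orth n v (comb v n (2 * n - 1) x) ∧ x (2 * n - 2) ≠ 0 := by
  have hker : LinearMap.ker (Phi n m p (2 * n - 1)) ≠ ⊥ :=
    LinearMap.ker_ne_bot_of_finrank_lt (by simp only [Module.finrank_fin_fun]; omega)
  obtain ⟨x, hx, hx0⟩ := (Submodule.ne_bot_iff _).1 hker
  rw [LinearMap.mem_ker] at hx
  have hO := orth_of_ker hn hM _ le_rfl x hx
  refine ⟨_, hO, ?_⟩
  intro hlast
  apply hx0
  have h2 : ∀ y : ℕ → ℂ, y (2 * n - 2) = 0 → comb v n (2 * n - 1) y = comb v n (2 * n - 2) y := by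
    intro y hy
    unfold comb
    rw [show 2 * n - 1 = (2 * n - 2) + 1 by omega, Finset.sum_range_succ, hy]
    simp
  rw [h2 _ hlast] at hO
  have h3 := comb_zero hn _ (2 * n - 2) le_rfl hO
  funext j
  rcases Nat.lt_or_ge j (2 * n - 2) with hj | hj
  · have := h3 j hj
    simpa using this
  · have hj' : (j : ℕ) = 2 * n - 2 := by have := j.2; omega
    have : (if h : (j : ℕ) < 2 * n - 1 then x ⟨j, h⟩ else 0) = 0 := by
      rw [hj']; exact hlast
    simpa using this

end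

end Pool.Agent.KS6_2.WR
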