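import Pool.Agent.KS6_2.WR.Quart

/-!
Conclusion of the argument on fourth moments.
-/

namespace Pool.Agent.KS6_2.WR

open Polynomial Finset

section
variable {n m : ℕ} {v : ℕ → ℂ} {p : Fin m → ℕ → ℂ}

/-- the top moment -/
lemma mom_top (hn : 4 ≤ n) (hM : Mom n m v p) :
    ∑ i, p i 1 * p i 1 * p i (n - 1) * p i n = 1 := by
  rw [hM 1 1 (n - 1) n le_rfl (by omega) le_rfl (by omega) (by omega) (by omega) (by omega) le_rfl]
  have e1 : (wp v 1 * wp v 1).natDegree ≤ 2 :=
    natDegree_mul_le.trans (by rw [wp_natDegree v le_rfl])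
  have e2 : (wp v 1 * wp v 1 * wp v (n - 1)).natDegree ≤ n + 1 :=
    natDegree_mul_le.trans (by rw [wp_natDegree v (by omega : 1 ≤ n - 1)]; omega)
  have c1 : (wp v 1 * wp v 1).coeff 2 = 1 := by
    have h := coeff_mul_add_eq_of_natDegree_le (wp_natDegree v (a := 1) le_rfl).le
      (wp_natDegree v (a := 1) le_rfl).le
    rw [wp_coeff_self v le_rfl, one_mul] at h
    exact h
  have c2 : (wp v 1 * wp v 1 * wp v (n - 1)).coeff (n + 1) = 1 := by
    have h := coeff_mul_add_eq_of_natDegree_le e1 (wp_natDegree v (by omega : 1 ≤ n - 1)).le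
    rw [c1, wp_coeff_self v (by omega), one_mul, show 2 + (n - 1) = n + 1 by omega] at h
    exact h
  have h := coeff_mul_add_eq_of_natDegree_le e2 (wp_natDegree v (by omega : 1 ≤ n)).le
  rw [c2, wp_coeff_self v (by omega), one_mul, show n + 1 + n = 2 * n + 1 by omega] at h
  exact h

/-- the expansion of an orthogonality relation -/
lemma orth_expand {P : ℂ[X]} (hP : Orth n v P) (hdeg : P.natDegree ≤ 2 * n) {c d : ℕ}
    (hc1 : 1 ≤ c) (hc : c ≤ n) (hd1 : 1 ≤ d) (hd : d ≤ n) :
    P.coeff (2 * n + 1 - (c + d)) + v d * P.coeff (2 * n + 1 - c)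
      + v c * P.coeff (2 * n + 1 - d) = 0 := by
  have h := hP c d hc1 hc hd1 hd
  unfold wp at h
  have e : P * (X ^ c + C (v c)) * (X ^ d + C (v d))
      = P * X ^ (c + d) + C (v d) * (P * X ^ c) + C (v c) * (P * X ^ d) + C (v c * v d) * P := by
    rw [C_mul]; ring
  rw [e] at h
  simp only [coeff_add, coeff_C_mul] at h
  rw [coeff_mul_X_pow', coeff_mul_X_pow', coeff_mul_X_pow', if_pos (by omega), if_pos (by omega),
    if_pos (by omega), coeff_eq_zero_of_natDegree_lt (show P.natDegree < 2 * n + 1 by omega),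
    mul_zero, add_zero] at h
  exact h

theorem no_family (hn : 4 ≤ n) (hM : Mom n m v p) (hp0 : ∀ i, p i 0 = 0) (hm : m ≤ 2 * n - 2) :
    False := by
  obtain ⟨x, hO, hx⟩ := exists_P (by omega) hM hm
  set P := comb v n (2 * n - 1) x with hPdef
  have hdeg : P.natDegree ≤ 2 * n := (comb_natDegree (by omega) _ x).trans (by omega)
  have hs : P.coeff (2 * n) = x (2 * n - 2) := by
    have := comb_coeff (v := v) (n := n) (by omega) (2 * n - 2) x
    rw [show 2 * n - 2 + 1 = 2 * n - 1 by omega, show 2 * n - 2 + 2 = 2 * n by omega] at this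
    exact this
  set s := x (2 * n - 2) with hsdef
  set ψ : ℕ → ℂ := fun k => P.coeff (2 * n + 1 - k) / s with hψ
  have hψ1 : ψ 1 = 1 := by
    show P.coeff (2 * n + 1 - 1) / s = 1
    rw [Nat.add_sub_cancel, hs, div_self hx]
  have hrel : ∀ a b, 1 ≤ a → a ≤ n → 1 ≤ b → b ≤ n → ψ (a + b) = -(v b * ψ a) - v a * ψ b := by
    intro a b ha1 ha hb1 hb
    have h := orth_expand hO hdeg ha1 ha hb1 hb
    show P.coeff (2 * n + 1 - (a + b)) / s
      = -(v b * (P.coeff (2 * n + 1 - a) / s)) - v a * (P.coeff (2 * n + 1 - b) / s)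
    field_simp
    linear_combination h
  set c : ℂ := -v 1 with hc
  set δ : ℂ := -v 2 - c ^ 2 with hδ
  have hv1 : v 1 = -c := by rw [hc]; ring
  have hψs : ∀ i, 1 ≤ i → i ≤ n → ψ (i + 1) = c * ψ i - v i := by
    intro i h1 h2
    rw [hrel i 1 h1 h2 le_rfl (by omega), hψ1, hv1]; ring
  have hψ2 : ψ 2 = 2 * c := by
    have := hψs 1 le_rfl (by omega)
    rw [hψ1, hv1] at this
    rw [show (2 : ℕ) = 1 + 1 from rfl, this]; ring
  have hvs : ∀ i, 1 ≤ i → i + 1 ≤ n → v (i + 1) = c * v i - δ * ψ i := by
    intro i h1 h2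
    have e1 := hψs (i + 1) (by omega) h2
    have e2 := hrel i 2 h1 (by omega) (by omega) (by omega)
    have e3 := hψs i h1 (by omega)
    rw [show i + 1 + 1 = i + 2 from rfl] at e1
    rw [hψ2] at e2
    rw [hδ]
    linear_combination e1 - e2 + c * e3
  have hR : Rec n v c δ := by
    refine ⟨hv1, by rw [hδ]; ring, ?_⟩
    intro i h1 h2
    have e1 := hvs i h1 (by omega)
    have e2 := hvs (i + 1) (by omega) h2
    have e3 := hψs i h1 (by omega)
    rw [show i + 1 + 1 = i + 2 from rfl] at e2
    linear_combination e2 - c * e1 - δ * e3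
  by_cases hδ0 : δ = 0
  · -- degenerate case
    have hva : ∀ a, 1 ≤ a → a ≤ n → v a = -c ^ a := by
      intro a ha1
      induction a, ha1 using Nat.le_induction with
      | base => intro _; rw [hv1, pow_one]
      | succ a ha1 ih =>
        intro ha
        rw [hvs a ha1 ha, hδ0, ih (by omega), pow_succ]; ring
    have hψa : ∀ a, 1 ≤ a → a ≤ n + 1 → ψ a = a * c ^ (a - 1) := by
      intro a ha1
      induction a, ha1 using Nat.le_induction with
      | base => intro _; rw [hψ1]; simp
      | succ a ha1 ih =>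
        intro ha
        rw [hψs a ha1 (by omega), ih (by omega), hva a ha1 (by omega)]
        obtain ⟨b, rfl⟩ : ∃ b, a = b + 1 := ⟨a - 1, by omega⟩
        simp only [Nat.add_sub_cancel]
        push_cast
        ring
    have hψb : ∀ k, 1 ≤ k → k ≤ 2 * n → ψ k = k * c ^ (k - 1) := by
      intro k h1 h2
      rcases Nat.lt_or_ge k (n + 2) with h | h
      · exact hψa k h1 (by omega)
      · obtain ⟨b, rfl⟩ : ∃ b, k = b + n := ⟨k - n, by omega⟩
        rw [hrel b n (by omega) (by omega) (by omega) le_rfl, hψa b (by omega) (by omega),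
          hψa n (by omega) (by omega), hva b (by omega) (by omega), hva n (by omega) le_rfl]
        obtain ⟨b', rfl⟩ : ∃ b', b = b' + 1 := ⟨b - 1, by omega⟩
        obtain ⟨n', rfl⟩ : ∃ n', n = n' + 1 := ⟨n - 1, by omega⟩
        rw [show b' + 1 + (n' + 1) - 1 = b' + n' + 1 by omega]
        simp only [Nat.add_sub_cancel]
        push_cast
        ring
    -- derivative at `c`
    have hP0 : (derivative P).eval c = 0 := by
      rw [hPdef]
      unfold comb Tp
      simp only [derivative_sum, eval_finsetSum, derivative_mul, derivative_C]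
      apply Finset.sum_eq_zero
      intro j hj
      rw [Finset.mem_range] at hj
      have w0 : ∀ a, 1 ≤ a → a ≤ n → (wp v a).eval c = 0 := by
        intro a h1 h2
        unfold wp
        rw [eval_add, eval_pow, eval_X, eval_C, hva a h1 h2]; ring
      simp only [eval_add, eval_mul, w0 _ (al_ge _ _) (al_le (n := n) (k := j + 2) (by omega) (by omega)),
        w0 _ (be_ge (n := n) (k := j + 2) (by omega) (by omega)) be_le]
      simp
    have hP1 : (derivative P).eval c
        = s * c ^ (2 * n - 1) * ∑ i ∈ range (2 * n + 1), ((i * (2 * n + 1 - i) : ℕ) : ℂ) := by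
      rw [derivative_eval, sum_over_range' _ _ (2 * n + 1) (by omega), Finset.mul_sum]
      · apply Finset.sum_congr rfl
        intro i hi
        rw [Finset.mem_range] at hi
        rcases Nat.eq_zero_or_pos i with rfl | hi0
        · simp
        · have h := hψb (2 * n + 1 - i) (by omega) (by omega)
          have h' : P.coeff i / s = ((2 * n + 1 - i : ℕ) : ℂ) * c ^ (2 * n + 1 - i - 1) := by
            rw [← h]
            show _ = P.coeff (2 * n + 1 - (2 * n + 1 - i)) / s
            rw [show 2 * n + 1 - (2 * n + 1 - i) = i by omega]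
          rw [div_eq_iff hx] at h'
          rw [h', Nat.cast_mul, show 2 * n - 1 = (2 * n + 1 - i - 1) + (i - 1) by omega, pow_add]
          ring
      · intro k; simp
    have hc0 : c = 0 := by
      rw [hP0] at hP1
      have hsum : (∑ i ∈ range (2 * n + 1), ((i * (2 * n + 1 - i) : ℕ) : ℂ)) ≠ 0 := by
        rw [← Nat.cast_sum]
        have : 0 < ∑ i ∈ range (2 * n + 1), i * (2 * n + 1 - i) := by
          apply Finset.sum_pos' (fun _ _ => Nat.zero_le _)
          refine ⟨1, Finset.mem_range.2 (by omega), ?_⟩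
          rw [one_mul]; omega
        exact_mod_cast this.ne'
      have h2 : s * c ^ (2 * n - 1) = 0 := by
        rcases mul_eq_zero.1 hP1.symm with h | h
        · exact h
        · exact absurd h hsum
      rcases mul_eq_zero.1 h2 with h | h
      · exact absurd h hx
      · exact pow_eq_zero_iff (by omega) |>.1 h
    have hv0 : ∀ a, 1 ≤ a → a ≤ n → v a = 0 := by
      intro a h1 h2
      rw [hva a h1 h2, hc0, zero_pow (by omega), neg_zero]
    have hw : ∀ a, 1 ≤ a → a ≤ n → wp v a = X ^ a := by
      intro a h1 h2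
      unfold wp
      rw [hv0 a h1 h2, C_0, add_zero]
    have hy := vec_zero (by omega) hM hm (fun i => p i n * p i n) (by
      intro a b ha1 ha hb1 hb
      have h := hM n n a b (by omega) le_rfl (by omega) le_rfl ha1 ha hb1 hb
      rw [hw n (by omega) le_rfl, hw a ha1 ha, hw b hb1 hb, ← pow_add, ← pow_add, ← pow_add,
        coeff_X_pow, if_neg (by omega)] at h
      rw [← h]
      apply Finset.sum_congr rfl
      intro i _
      ring)
    have htop := mom_top hn hM
    rw [Finset.sum_eq_zero] at htop
    · exact zero_ne_one htop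
    · intro i _
      have h1 := congrFun hy i
      have h2 : p i n = 0 := by
        simpa using h1
      rw [h2, mul_zero]
  · -- main case
    have htop := mom_top hn hM
    rw [Finset.sum_eq_zero] at htop
    · exact zero_ne_one htop
    · intro i _
      obtain ⟨r1, r2, r3⟩ := point_rel hn hM hp0 hm hR i
      have r1' := r1 0 (by omega)
      simp only [Nat.zero_add] at r1'
      have hq : δ ^ 2 * p i 1 ^ 3 = 0 := by
        linear_combination (δ * p i 1 + (rho c δ (p i) 1 - c * rho c δ (p i) 0)) * r2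
          - p i 1 * r1' + rho c δ (p i) 0 * r3
      have hq0 : p i 1 = 0 := by
        rcases mul_eq_zero.1 hq with h | h
        · exact absurd (pow_eq_zero_iff (by norm_num) |>.1 h) hδ0
        · exact pow_eq_zero_iff (by norm_num) |>.1 h
      rw [hq0]; ring

end

end Pool.Agent.KS6_2.WR
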