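import Pool.Agent.KS6_2.WR.Core

/-!
No family of at most `2 n - 2` vectors has the fourth moments of the quartic example.
-/

namespace Pool.Agent.KS6_2.WR

open Polynomial Finset

section
variable {n m : ℕ} {v : ℕ → ℂ} {p : Fin m → ℕ → ℂ}

/-- projection to the span of the `wp v a` -/
noncomputable def hat (n : ℕ) (v : ℕ → ℂ) : ℂ[X] →ₗ[ℂ] ℂ[X] where
  toFun A := ∑ a ∈ Icc 1 n, A.coeff a • wp v a
  map_add' A B := by simp only [coeff_add, add_smul, Finset.sum_add_distrib]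
  map_smul' c A := by
    simp only [coeff_smul, smul_eq_mul, mul_smul, Finset.smul_sum, RingHom.id_apply]

/-- the functional attached to a vector -/
noncomputable def pf (n : ℕ) (q : ℕ → ℂ) : ℂ[X] →ₗ[ℂ] ℂ where
  toFun A := ∑ a ∈ Icc 1 n, A.coeff a * q a
  map_add' A B := by simp only [coeff_add, add_mul, Finset.sum_add_distrib]
  map_smul' c A := by
    simp only [coeff_smul, smul_eq_mul, Finset.mul_sum, mul_assoc, RingHom.id_apply]

lemma hat_apply (A : ℂ[X]) : hat n v A = ∑ a ∈ Icc 1 n, A.coeff a • wp v a := rfl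
lemma pf_apply (q : ℕ → ℂ) (A : ℂ[X]) : pf n q A = ∑ a ∈ Icc 1 n, A.coeff a * q a := rfl

lemma hat_pow {a : ℕ} (h1 : 1 ≤ a) (h2 : a ≤ n) : hat n v (X ^ a) = wp v a := by
  rw [hat_apply, Finset.sum_eq_single a]
  · simp
  · intro b _ hb
    rw [coeff_X_pow, if_neg hb, zero_smul]
  · intro h
    exact absurd (Finset.mem_Icc.2 ⟨h1, h2⟩) h

lemma hat_one : hat n v 1 = 0 := by
  rw [hat_apply]
  apply Finset.sum_eq_zero
  intro a ha
  rw [Finset.mem_Icc] at ha
  rw [coeff_one, if_neg (by omega), zero_smul]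

lemma pf_pow (q : ℕ → ℂ) {a : ℕ} (h1 : 1 ≤ a) (h2 : a ≤ n) : pf n q (X ^ a) = q a := by
  rw [pf_apply, Finset.sum_eq_single a]
  · simp
  · intro b _ hb
    rw [coeff_X_pow, if_neg hb, zero_mul]
  · intro h
    exact absurd (Finset.mem_Icc.2 ⟨h1, h2⟩) h

lemma pf_one (q : ℕ → ℂ) : pf n q 1 = 0 := by
  rw [pf_apply]
  apply Finset.sum_eq_zero
  intro a ha
  rw [Finset.mem_Icc] at ha
  rw [coeff_one, if_neg (by omega), zero_mul]

lemma bil (hM : Mom n m v p) (A B : ℂ[X]) (c d : ℕ) (hc1 : 1 ≤ c) (hc : c ≤ n) (hd1 : 1 ≤ d)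
    (hd : d ≤ n) :
    ∑ i, (pf n (p i) A * pf n (p i) B) * (p i c * p i d)
      = (hat n v A * hat n v B * wp v c * wp v d).coeff (2 * n + 1) := by
  have h1 : hat n v A * hat n v B * wp v c * wp v d
      = ∑ a ∈ Icc 1 n, ∑ b ∈ Icc 1 n, C (A.coeff a * B.coeff b) *
          (wp v a * wp v b * wp v c * wp v d) := by
    rw [hat_apply, hat_apply, Finset.sum_mul_sum, Finset.sum_mul, Finset.sum_mul]
    apply Finset.sum_congr rfl; intro a _
    rw [Finset.sum_mul, Finset.sum_mul]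
    apply Finset.sum_congr rfl; intro b _
    rw [smul_eq_C_mul, smul_eq_C_mul, C_mul]
    ring
  rw [h1]
  simp only [finsetSum_coeff, coeff_C_mul]
  have h2 : ∀ i, (pf n (p i) A * pf n (p i) B) * (p i c * p i d)
      = ∑ a ∈ Icc 1 n, ∑ b ∈ Icc 1 n, (A.coeff a * B.coeff b) *
          (p i a * p i b * p i c * p i d) := by
    intro i
    rw [pf_apply, pf_apply, Finset.sum_mul_sum, Finset.sum_mul]
    apply Finset.sum_congr rfl; intro a _
    rw [Finset.sum_mul]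
    apply Finset.sum_congr rfl; intro b _
    ring
  rw [Finset.sum_congr rfl fun i _ => h2 i, Finset.sum_comm]
  apply Finset.sum_congr rfl; intro a ha
  rw [Finset.sum_comm]
  apply Finset.sum_congr rfl; intro b hb
  rw [Finset.mem_Icc] at ha hb
  rw [← Finset.mul_sum, hM a b c d ha.1 ha.2 hb.1 hb.2 hc1 hc hd1 hd]

lemma quad_zero (hn : 2 ≤ n) (hM : Mom n m v p) (hm : m ≤ 2 * n - 2)
    (A₁ B₁ A₂ B₂ A₃ B₃ : ℂ[X]) (k₁ k₂ k₃ κ : ℂ)
    (h1 : hat n v A₁ = A₁) (h1' : hat n v B₁ = B₁) (h2 : hat n v A₂ = A₂) (h2' : hat n v B₂ = B₂)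
    (h3 : hat n v A₃ = A₃) (h3' : hat n v B₃ = B₃)
    (h : C k₁ * (A₁ * B₁) + C k₂ * (A₂ * B₂) + C k₃ * (A₃ * B₃) = C κ) (i : Fin m) :
    k₁ * (pf n (p i) A₁ * pf n (p i) B₁) + k₂ * (pf n (p i) A₂ * pf n (p i) B₂) +
      k₃ * (pf n (p i) A₃ * pf n (p i) B₃) = 0 := by
  have key := vec_zero hn hM hm (fun i => k₁ * (pf n (p i) A₁ * pf n (p i) B₁) +
    k₂ * (pf n (p i) A₂ * pf n (p i) B₂) + k₃ * (pf n (p i) A₃ * pf n (p i) B₃)) ?_
  · exact congrFun key i
  · intro c d hc1 hc hd1 hd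
    have e1 := bil hM A₁ B₁ c d hc1 hc hd1 hd
    have e2 := bil hM A₂ B₂ c d hc1 hc hd1 hd
    have e3 := bil hM A₃ B₃ c d hc1 hc hd1 hd
    rw [h1, h1'] at e1
    rw [h2, h2'] at e2
    rw [h3, h3'] at e3
    have e4 : ∑ i, (k₁ * (pf n (p i) A₁ * pf n (p i) B₁) +
        k₂ * (pf n (p i) A₂ * pf n (p i) B₂) + k₃ * (pf n (p i) A₃ * pf n (p i) B₃)) *
          (p i c * p i d)
        = k₁ * ∑ i, (pf n (p i) A₁ * pf n (p i) B₁) * (p i c * p i d)
          + k₂ * ∑ i, (pf n (p i) A₂ * pf n (p i) B₂) * (p i c * p i d)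
          + k₃ * ∑ i, (pf n (p i) A₃ * pf n (p i) B₃) * (p i c * p i d) := by
      rw [Finset.mul_sum, Finset.mul_sum, Finset.mul_sum, ← Finset.sum_add_distrib,
        ← Finset.sum_add_distrib]
      apply Finset.sum_congr rfl; intro i _
      ring
    rw [e4, e1, e2, e3, ← coeff_C_mul, ← coeff_C_mul, ← coeff_C_mul, ← coeff_add, ← coeff_add]
    have e5 : C k₁ * (A₁ * B₁ * wp v c * wp v d) + C k₂ * (A₂ * B₂ * wp v c * wp v d) +
        C k₃ * (A₃ * B₃ * wp v c * wp v d) = C κ * (wp v c * wp v d) := by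
      rw [← h]; ring
    rw [e5]
    apply coeff_eq_zero_of_natDegree_lt
    refine lt_of_le_of_lt ((natDegree_C_mul_le _ _).trans natDegree_mul_le) ?_
    rw [wp_natDegree v hc1, wp_natDegree v hd1]
    omega

/-- the quadratic polynomial -/
noncomputable def ep (c δ : ℂ) : ℂ[X] := X ^ 2 - C (2 * c) * X + C (c ^ 2 - δ)

lemma ep_mul_pow (c δ : ℂ) (j : ℕ) :
    ep c δ * X ^ j = X ^ (j + 2) - (2 * c) • X ^ (j + 1) + (c ^ 2 - δ) • X ^ j := by
  unfold ep
  rw [smul_eq_C_mul, smul_eq_C_mul]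
  ring

/-- the recurrence of the shifts -/
def Rec (n : ℕ) (v : ℕ → ℂ) (c δ : ℂ) : Prop :=
  v 1 = -c ∧ v 2 = -(c ^ 2 + δ) ∧ ∀ i, 1 ≤ i → i + 2 ≤ n →
    v (i + 2) - 2 * c * v (i + 1) + (c ^ 2 - δ) * v i = 0

lemma hat_ep (hn : 4 ≤ n) {c δ : ℂ} (hR : Rec n v c δ) {j : ℕ} (hj : j + 2 ≤ n) :
    hat n v (ep c δ * X ^ j) = ep c δ * X ^ j := by
  rcases Nat.eq_zero_or_pos j with rfl | hj0
  · rw [ep_mul_pow, map_add, map_sub, map_smul, map_smul, hat_pow (by omega) (by omega),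
      hat_pow (by omega) (by omega), pow_zero, hat_one]
    unfold wp
    obtain ⟨h1, h2, _⟩ := hR
    rw [h1, h2]
    simp only [smul_eq_C_mul, C_add, C_neg, C_mul, C_pow, C_sub, map_ofNat]
    ring
  · rw [ep_mul_pow, map_add, map_sub, map_smul, map_smul, hat_pow (by omega) (by omega),
      hat_pow (by omega) (by omega), hat_pow (by omega) (by omega)]
    unfold wp
    have h3 := hR.2.2 j hj0 hj
    have h4 : v (j + 2) = 2 * c * v (j + 1) - (c ^ 2 - δ) * v j := by linear_combination h3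
    rw [h4]
    simp only [smul_eq_C_mul, C_mul, C_pow, C_sub]
    ring

lemma hat_g (hn : 4 ≤ n) {c δ : ℂ} (hR : Rec n v c δ) : hat n v (X - C c) = X - C c := by
  have e : (X - C c : ℂ[X]) = X ^ 1 - c • 1 := by
    rw [smul_eq_C_mul]; ring
  rw [e, map_sub, map_smul, hat_pow (by omega) (by omega), hat_one]
  unfold wp
  rw [hR.1]
  simp only [smul_eq_C_mul, C_neg]
  ring

/-- the numbers `ρ_j` -/
def rho (c δ : ℂ) (q : ℕ → ℂ) (j : ℕ) : ℂ := q (j + 2) - 2 * c * q (j + 1) + (c ^ 2 - δ) * q j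

lemma pf_ep (c δ : ℂ) (q : ℕ → ℂ) (hq : q 0 = 0) {j : ℕ} (hj : j + 2 ≤ n) :
    pf n q (ep c δ * X ^ j) = rho c δ q j := by
  unfold rho
  rcases Nat.eq_zero_or_pos j with rfl | hj0
  · rw [ep_mul_pow, map_add, map_sub, map_smul, map_smul, pf_pow q (by omega) (by omega),
      pf_pow q (by omega) (by omega), pow_zero, pf_one, hq]
    simp only [smul_eq_mul]
  · rw [ep_mul_pow, map_add, map_sub, map_smul, map_smul, pf_pow q (by omega) (by omega),
      pf_pow q (by omega) (by omega), pf_pow q (by omega) (by omega)]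
    simp only [smul_eq_mul]

/-- the relations at one of the points -/
lemma point_rel (hn : 4 ≤ n) (hM : Mom n m v p) (hp0 : ∀ i, p i 0 = 0) (hm : m ≤ 2 * n - 2)
    {c δ : ℂ} (hR : Rec n v c δ) (i : Fin m) :
    (∀ j, j + 4 ≤ n → rho c δ (p i) j * rho c δ (p i) (j + 2) = rho c δ (p i) (j + 1) ^ 2) ∧
    δ * p i 1 ^ 2 - (rho c δ (p i) 1 - c * rho c δ (p i) 0) * p i 1 + rho c δ (p i) 0 ^ 2 = 0 ∧
    (rho c δ (p i) 2 - 2 * c * rho c δ (p i) 1 + (c ^ 2 - δ) * rho c δ (p i) 0) * p i 1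
      = rho c δ (p i) 0 * (rho c δ (p i) 1 - c * rho c δ (p i) 0) := by
  have hE : ∀ {j : ℕ}, j + 2 ≤ n → hat n v (ep c δ * X ^ j) = ep c δ * X ^ j :=
    fun h => hat_ep hn hR h
  have hg := hat_g hn hR
  have pg : pf n (p i) (X - C c) = p i 1 := by
    have e : (X - C c : ℂ[X]) = X ^ 1 - c • 1 := by
      rw [smul_eq_C_mul]; ring
    rw [e, map_sub, map_smul, pf_pow _ (by omega) (by omega), pf_one]
    simp
  have heg : ep c δ * (X - C c) = ep c δ * X ^ 1 - c • (ep c δ * X ^ 0) := by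
    rw [smul_eq_C_mul]; ring
  have hhg : hat n v (ep c δ * (X - C c)) = ep c δ * (X - C c) := by
    rw [heg, map_sub, map_smul, hE (by omega), hE (by omega)]
  have phg : pf n (p i) (ep c δ * (X - C c)) = rho c δ (p i) 1 - c * rho c δ (p i) 0 := by
    rw [heg, map_sub, map_smul, pf_ep c δ _ (hp0 i) (by omega), pf_ep c δ _ (hp0 i) (by omega)]
    simp
  have hee : ep c δ * ep c δ = ep c δ * X ^ 2 - (2 * c) • (ep c δ * X ^ 1)
      + (c ^ 2 - δ) • (ep c δ * X ^ 0) := by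
    rw [smul_eq_C_mul, smul_eq_C_mul]
    conv_lhs => rw [show ep c δ * ep c δ = ep c δ * (X ^ 2 - C (2 * c) * X + C (c ^ 2 - δ)) from rfl]
    ring
  have hhe : hat n v (ep c δ * ep c δ) = ep c δ * ep c δ := by
    rw [hee, map_add, map_sub, map_smul, map_smul, hE (by omega), hE (by omega), hE (by omega)]
  have phe : pf n (p i) (ep c δ * ep c δ)
      = rho c δ (p i) 2 - 2 * c * rho c δ (p i) 1 + (c ^ 2 - δ) * rho c δ (p i) 0 := by
    rw [hee, map_add, map_sub, map_smul, map_smul, pf_ep c δ _ (hp0 i) (by omega),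
      pf_ep c δ _ (hp0 i) (by omega), pf_ep c δ _ (hp0 i) (by omega)]
    simp only [smul_eq_mul]
  have he0 : hat n v (ep c δ) = ep c δ := by
    have := hE (j := 0) (by omega)
    simpa using this
  have pe0 : pf n (p i) (ep c δ) = rho c δ (p i) 0 := by
    have := pf_ep (n := n) c δ (p i) (hp0 i) (j := 0) (by omega)
    simpa using this
  refine ⟨?_, ?_, ?_⟩
  · intro j hj
    have h := quad_zero (by omega) hM hm (ep c δ * X ^ j) (ep c δ * X ^ (j + 2))
      (ep c δ * X ^ (j + 1)) (ep c δ * X ^ (j + 1)) (ep c δ) (ep c δ) 1 (-1) 0 0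
      (hE (by omega)) (hE (by omega)) (hE (by omega)) (hE (by omega)) he0 he0
      (by simp only [C_neg, C_1, C_0]; ring) i
    rw [pf_ep c δ _ (hp0 i) (by omega), pf_ep c δ _ (hp0 i) (by omega),
      pf_ep c δ _ (hp0 i) (by omega)] at h
    linear_combination h
  · have h := quad_zero (by omega) hM hm (X - C c) (X - C c)
      (ep c δ * (X - C c)) (X - C c) (ep c δ) (ep c δ) δ (-1) 1 (δ ^ 2)
      hg hg hhg hg he0 he0
      (by
        unfold ep
        simp only [C_neg, C_1, C_mul, C_pow, C_sub, map_ofNat]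
        ring) i
    rw [pg, phg, pe0] at h
    linear_combination h
  · have h := quad_zero (by omega) hM hm (ep c δ * ep c δ) (X - C c)
      (ep c δ) (ep c δ * (X - C c)) (ep c δ) (ep c δ) 1 (-1) 0 0
      hhe hg he0 hhg he0 he0
      (by simp only [C_neg, C_1, C_0]; ring) i
    rw [pg, phg, pe0, phe] at h
    linear_combination h

end

end Pool.Agent.KS6_2.WR
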