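import Pool.Agent.KS6_2.WR.Two
import Pool.Agent.KS6_2.WR.NoFam

/-!
The quartic forms: definition, decomposition with `2 n + 2` terms, and the lower bound.
-/

namespace Pool.Agent.KS6_2.WR

open Finset

/-! ### Discrete Fourier sums -/

/-- the root of unity -/
noncomputable def zt (n : ℕ) : ℂ := Complex.exp (2 * Real.pi * Complex.I / (2 * n + 2 : ℕ))

lemma zt_prim (n : ℕ) : IsPrimitiveRoot (zt n) (2 * n + 2) :=
  Complex.isPrimitiveRoot_exp (2 * n + 2) (by omega)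

/-- the weights -/
noncomputable def cw (n : ℕ) (r : Fin (2 * n + 2)) : ℂ := zt n ^ (r : ℕ) / (2 * n + 2 : ℕ)

lemma cw_sum (n m : ℕ) : ∑ r, cw n r * (zt n ^ (r : ℕ)) ^ m
    = if 2 * n + 2 ∣ m + 1 then 1 else 0 := by
  have h1 : ∑ r, cw n r * (zt n ^ (r : ℕ)) ^ m
      = (∑ r ∈ range (2 * n + 2), (zt n ^ (m + 1)) ^ r) / (2 * n + 2 : ℕ) := by
    rw [Finset.sum_div, ← Fin.sum_univ_eq_sum_range
      (fun r => (zt n ^ (m + 1)) ^ r / ((2 * n + 2 : ℕ) : ℂ))]
    apply Finset.sum_congr rfl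
    intro r _
    unfold cw
    rw [div_mul_eq_mul_div]
    congr 1
    rw [← pow_mul, ← pow_mul, ← pow_add]
    congr 1
    ring
  have hR : ((2 * n + 2 : ℕ) : ℂ) ≠ 0 := Nat.cast_ne_zero.2 (by omega)
  rw [h1]
  split_ifs with h
  · have h2 : zt n ^ (m + 1) = 1 := ((zt_prim n).pow_eq_one_iff_dvd _).2 h
    rw [h2]
    simp only [one_pow, Finset.sum_const, Finset.card_range, nsmul_eq_mul, mul_one]
    exact div_self hR
  · have h2 : zt n ^ (m + 1) ≠ 1 := fun h3 => h (((zt_prim n).pow_eq_one_iff_dvd _).1 h3)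
    have h3 : (∑ r ∈ range (2 * n + 2), (zt n ^ (m + 1)) ^ r) * (zt n ^ (m + 1) - 1) = 0 := by
      rw [geom_sum_mul, ← pow_mul, mul_comm (m + 1), pow_mul, (zt_prim n).pow_eq_one, one_pow,
        sub_self]
    rcases mul_eq_zero.1 h3 with h4 | h4
    · rw [h4, zero_div]
    · exact absurd (sub_eq_zero.1 h4) h2

lemma cw_sum_lt (n m : ℕ) (hm : m < 4 * n + 3) : ∑ r, cw n r * (zt n ^ (r : ℕ)) ^ m
    = if m = 2 * n + 1 then 1 else 0 := by
  rw [cw_sum]
  by_cases h : m = 2 * n + 1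
  · rw [if_pos h, if_pos (by rw [h])]
  · rw [if_neg h, if_neg]
    rintro ⟨q, hq⟩
    have h1 : q < 2 := by
      by_contra h2
      push Not at h2
      have : (2 * n + 2) * 2 ≤ (2 * n + 2) * q := Nat.mul_le_mul_left _ h2
      omega
    interval_cases q <;> omega

open Polynomial in
lemma cw_poly (n : ℕ) (P : ℂ[X]) (hP : P.natDegree < 4 * n + 3) :
    ∑ r, cw n r * P.eval (zt n ^ (r : ℕ)) = P.coeff (2 * n + 1) := by
  have h1 : ∀ x : ℂ, P.eval x = ∑ i ∈ range (4 * n + 3), P.coeff i * x ^ i := by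
    intro x
    exact eval_eq_sum_range' hP x
  simp only [h1, Finset.mul_sum]
  rw [Finset.sum_comm]
  have h2 : ∀ i ∈ range (4 * n + 3), ∑ r, cw n r * (P.coeff i * (zt n ^ (r : ℕ)) ^ i)
      = if i = 2 * n + 1 then P.coeff (2 * n + 1) else 0 := by
    intro i hi
    rw [Finset.mem_range] at hi
    have h3 : ∑ r, cw n r * (P.coeff i * (zt n ^ (r : ℕ)) ^ i)
        = P.coeff i * ∑ r, cw n r * (zt n ^ (r : ℕ)) ^ i := by
      rw [Finset.mul_sum]
      exact Finset.sum_congr rfl fun r _ => by ring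
    rw [h3, cw_sum_lt n i hi]
    split_ifs with h
    · rw [h, mul_one]
    · rw [mul_zero]
  rw [Finset.sum_congr rfl h2, Finset.sum_ite_eq', if_pos (Finset.mem_range.2 (by omega))]

open MvPolynomial

/-! ### The forms -/

section
variable {σ : Type}

/-- the points of the curve -/
noncomputable def Yf (n : ℕ) (y : Fin n → MvPolynomial σ ℂ) (r : Fin (2 * n + 2)) :
    MvPolynomial σ ℂ := ∑ j : Fin n, C ((zt n ^ (r : ℕ)) ^ ((j : ℕ) + 1)) * y j

lemma low_zero (n : ℕ) (y : Fin n → MvPolynomial σ ℂ) :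
    ∑ r, (C (cw n r) : MvPolynomial σ ℂ) = 0 ∧ ∑ r, C (cw n r) * Yf n y r = 0 ∧
      ∑ r, C (cw n r) * Yf n y r ^ 2 = 0 := by
  refine ⟨?_, ?_, ?_⟩
  · have h := cw_sum_lt n 0 (by omega)
    rw [if_neg (by omega)] at h
    rw [← map_sum, ← C_0, ← h]
    congr 1
    exact Finset.sum_congr rfl fun r _ => by simp
  · unfold Yf
    simp only [Finset.mul_sum]
    rw [Finset.sum_comm]
    apply Finset.sum_eq_zero
    intro j _
    have h := cw_sum_lt n ((j : ℕ) + 1) (by omega)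
    rw [if_neg (by omega)] at h
    have h1 : ∑ r, C (cw n r) * (C ((zt n ^ (r : ℕ)) ^ ((j : ℕ) + 1)) * y j)
        = C (∑ r, cw n r * (zt n ^ (r : ℕ)) ^ ((j : ℕ) + 1)) * y j := by
      rw [map_sum, Finset.sum_mul]
      apply Finset.sum_congr rfl
      intro r _
      rw [C_mul]; ring
    rw [h1, h, C_0, zero_mul]
  · have e : ∀ r, C (cw n r) * Yf n y r ^ 2 = ∑ j : Fin n, ∑ k : Fin n,
        C (cw n r * (zt n ^ (r : ℕ)) ^ ((j : ℕ) + k + 2)) * (y j * y k) := by
      intro r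
      unfold Yf
      rw [pow_two, Finset.sum_mul_sum, Finset.mul_sum]
      apply Finset.sum_congr rfl; intro j _
      rw [Finset.mul_sum]
      apply Finset.sum_congr rfl; intro k _
      have e : (zt n ^ (r : ℕ)) ^ ((j : ℕ) + k + 2)
          = (zt n ^ (r : ℕ)) ^ ((j : ℕ) + 1) * (zt n ^ (r : ℕ)) ^ ((k : ℕ) + 1) := by
        rw [← pow_add]; congr 1; ring
      rw [e, C_mul, C_mul]
      generalize (C ((zt n ^ (r : ℕ)) ^ ((j : ℕ) + 1)) : MvPolynomial σ ℂ) = A
      generalize (C ((zt n ^ (r : ℕ)) ^ ((k : ℕ) + 1)) : MvPolynomial σ ℂ) = B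
      ring
    simp only [e]
    rw [Finset.sum_comm]
    apply Finset.sum_eq_zero; intro j _
    rw [Finset.sum_comm]
    apply Finset.sum_eq_zero; intro k _
    rw [← Finset.sum_mul, ← map_sum]
    have h := cw_sum_lt n ((j : ℕ) + k + 2) (by omega)
    rw [if_neg (by omega)] at h
    rw [h, C_0, zero_mul]

/-- the basic identity -/
lemma quart_identity (n : ℕ) (y : Fin n → MvPolynomial σ ℂ) (u : MvPolynomial σ ℂ) :
    ∑ r, C (cw n r) * (u + Yf n y r) ^ 4
      = ∑ r, C (cw n r) * Yf n y r ^ 4 + u * (4 * ∑ r, C (cw n r) * Yf n y r ^ 3) := by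
  obtain ⟨h0, h1, h2⟩ := low_zero n y
  have h : ∑ r, C (cw n r) * (u + Yf n y r) ^ 4
      = u ^ 4 * (∑ r, (C (cw n r) : MvPolynomial σ ℂ)) + 4 * u ^ 3 * (∑ r, C (cw n r) * Yf n y r)
        + 6 * u ^ 2 * (∑ r, C (cw n r) * Yf n y r ^ 2)
        + 4 * u * (∑ r, C (cw n r) * Yf n y r ^ 3) + ∑ r, C (cw n r) * Yf n y r ^ 4 := by
    rw [Finset.mul_sum, Finset.mul_sum, Finset.mul_sum, Finset.mul_sum, ← Finset.sum_add_distrib,
      ← Finset.sum_add_distrib, ← Finset.sum_add_distrib, ← Finset.sum_add_distrib]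
    exact Finset.sum_congr rfl fun r _ => by ring
  rw [h, h0, h1, h2]
  ring

end

/-- the quartic form -/
noncomputable def fq (n : ℕ) : MvPolynomial (Fin n) ℂ :=
  ∑ r, C (cw n r) * Yf n (fun j => X j) r ^ 4

/-- the cubic form -/
noncomputable def gq (n : ℕ) : MvPolynomial (Fin n) ℂ :=
  4 * ∑ r, C (cw n r) * Yf n (fun j => X j) r ^ 3

lemma Yf_homog {σ : Type} (n : ℕ) (y : Fin n → MvPolynomial σ ℂ)
    (hy : ∀ i, (y i).IsHomogeneous 1) (r : Fin (2 * n + 2)) : (Yf n y r).IsHomogeneous 1 :=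
  lin_homog _ _ hy

lemma fq_homog (n : ℕ) : (fq n).IsHomogeneous 4 := by
  refine IsHomogeneous.sum _ _ _ fun r _ => ?_
  have := (isHomogeneous_C (Fin n) (cw n r)).mul
    ((Yf_homog n (fun j => X j) (fun j => isHomogeneous_X _ _) r).pow 4)
  simpa using this

lemma gq_homog (n : ℕ) : (gq n).IsHomogeneous 3 := by
  have h1 : (∑ r, C (cw n r) * Yf n (fun j => X j) r ^ 3 : MvPolynomial (Fin n) ℂ).IsHomogeneous
      3 := by
    refine IsHomogeneous.sum _ _ _ fun r _ => ?_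
    have := (isHomogeneous_C (Fin n) (cw n r)).mul
      ((Yf_homog n (fun j => X j) (fun j => isHomogeneous_X _ _) r).pow 3)
    simpa using this
  have h2 := (isHomogeneous_C (Fin n) (4 : ℂ)).mul h1
  rw [map_ofNat, zero_add] at h2
  exact h2

lemma adjoin_q (n : ℕ) : adjoin (fq n) (gq n)
    = ∑ r, C (cw n r) * (X (Fin.last n) + Yf n (fun j : Fin n => X j.castSucc) r) ^ 4 := by
  rw [quart_identity]
  unfold adjoin fq gq
  have h : ∀ r, rename Fin.castSucc (Yf n (fun j : Fin n => (X j : MvPolynomial (Fin n) ℂ)) r)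
      = Yf n (fun j : Fin n => (X j.castSucc : MvPolynomial (Fin (n + 1)) ℂ)) r := by
    intro r
    unfold Yf
    simp only [map_sum, map_mul, rename_C, rename_X]
  simp only [map_sum, map_mul, map_pow, rename_C, h, map_ofNat]

lemma add_q (n : ℕ) (v : MvPolynomial (Fin n) ℂ) : fq n + v * gq n
    = ∑ r, C (cw n r) * (v + Yf n (fun j : Fin n => X j) r) ^ 4 := by
  rw [quart_identity]
  rfl

lemma powerSum_q (n : ℕ) : IsPowerSum 4 (2 * n + 2) (adjoin (fq n) (gq n)) := by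
  have hroot : ∀ z : ℂ, ∃ r : ℂ, r ^ 4 = z := fun z =>
    IsAlgClosed.exists_pow_nat_eq z (by norm_num)
  choose ρ hρ using hroot
  refine ⟨fun r => C (ρ (cw n r)) * (X (Fin.last n) + Yf n (fun j : Fin n => X j.castSucc) r),
    fun r => C_mul_homog _ ((isHomogeneous_X _ _).add
      (Yf_homog n _ (fun j => isHomogeneous_X _ _) r)), ?_⟩
  rw [adjoin_q]
  apply Finset.sum_congr rfl
  intro r _
  rw [mul_pow, ← C_pow, hρ]

/-! ### Polarization -/

section
variable {n : ℕ}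

lemma pderiv_lin (p : Fin n → ℂ) (a : Fin n) : pderiv a (∑ j, C (p j) * X j) = C (p a) := by
  rw [map_sum, Finset.sum_eq_single a]
  · rw [Derivation.leibniz, pderiv_C, pderiv_X_self]
    simp
  · intro b _ hb
    rw [Derivation.leibniz, pderiv_C, pderiv_X_of_ne hb]
    simp
  · intro h
    exact absurd (Finset.mem_univ a) h

lemma pderiv_pow_lin (p : Fin n → ℂ) (a : Fin n) (s : ℂ) (k : ℕ) :
    pderiv a (C s * (∑ j, C (p j) * X j) ^ (k + 1))
      = C (s * (k + 1) * p a) * (∑ j, C (p j) * X j) ^ k := by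
  rw [Derivation.leibniz, pderiv_C, Derivation.leibniz_pow, pderiv_lin, Nat.add_sub_cancel]
  simp only [nsmul_eq_mul, smul_eq_mul, mul_zero, add_zero, C_mul, C_add, C_1, map_natCast]
  push_cast
  ring

lemma quad_pderiv (p : Fin n → ℂ) (a b c d : Fin n) (s : ℂ) :
    pderiv a (pderiv b (pderiv c (pderiv d (C s * (∑ j, C (p j) * X j) ^ 4))))
      = C (24 * s * (p a * p b * p c * p d)) := by
  rw [pderiv_pow_lin p d s 3, pderiv_pow_lin p c _ 2, pderiv_pow_lin p b _ 1,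
    pderiv_pow_lin p a _ 0, pow_zero, mul_one]
  congr 1
  push_cast
  ring

lemma tri_pderiv (p : Fin n → ℂ) (a b c : Fin n) (s : ℂ) :
    pderiv a (pderiv b (pderiv c (C s * (∑ j, C (p j) * X j) ^ 3)))
      = C (6 * s * (p a * p b * p c)) := by
  rw [pderiv_pow_lin p c s 2, pderiv_pow_lin p b _ 1,
    pderiv_pow_lin p a _ 0, pow_zero, mul_one]
  congr 1
  push_cast
  ring

lemma quad_sum {ι : Type} [Fintype ι] (p : ι → Fin n → ℂ) (s : ι → ℂ) (a b c d : Fin n) :
    pderiv a (pderiv b (pderiv c (pderiv d (∑ i, C (s i) * (∑ j, C (p i j) * X j) ^ 4))))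
      = C (24 * ∑ i, s i * (p i a * p i b * p i c * p i d)) := by
  rw [map_sum, map_sum, map_sum, map_sum, Finset.mul_sum, map_sum]
  apply Finset.sum_congr rfl
  intro i _
  rw [quad_pderiv (p i) a b c d (s i)]
  congr 1
  ring

end

end Pool.Agent.KS6_2.WR
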