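import Pool.Agent.KS6_2.WR.QuartForms

/-!
The lower bound for the quartic forms.
-/

namespace Pool.Agent.KS6_2.WR

open Finset MvPolynomial

/-- extension of a vector to all indices, shifted by one -/
noncomputable def ext {n : ℕ} (q : Fin n → ℂ) (a : ℕ) : ℂ :=
  if h : a - 1 < n ∧ 1 ≤ a then q ⟨a - 1, h.1⟩ else 0

lemma ext_of {n : ℕ} (q : Fin n → ℂ) {a : ℕ} (h1 : 1 ≤ a) (h2 : a ≤ n) :
    ext q a = q ⟨a - 1, by omega⟩ := by
  unfold ext
  rw [dif_pos ⟨by omega, h1⟩]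

lemma ext_zero {n : ℕ} (q : Fin n → ℂ) : ext q 0 = 0 := by
  unfold ext
  rw [dif_neg (by omega)]

lemma mom_of {n m : ℕ} (ν : Fin n → ℂ) (p : Fin m → Fin n → ℂ)
    (h : fq n + (∑ j, C (ν j) * X j) * gq n = ∑ k, (∑ j, C (p k j) * X j) ^ 4) :
    Mom n m (ext ν) (fun k => ext (p k)) := by
  intro a b c d ha1 ha hb1 hb hc1 hc hd1 hd
  rw [add_q] at h
  have e1 : ∀ r, (∑ j, C (ν j) * X j) + Yf n (fun j : Fin n => (X j : MvPolynomial (Fin n) ℂ)) r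
      = ∑ j : Fin n, C (ν j + (zt n ^ (r : ℕ)) ^ ((j : ℕ) + 1)) * X j := by
    intro r
    unfold Yf
    rw [← Finset.sum_add_distrib]
    apply Finset.sum_congr rfl
    intro j _
    rw [C_add, add_mul]
  have h1 : ∑ r, C (cw n r) * (∑ j : Fin n, C (ν j + (zt n ^ (r : ℕ)) ^ ((j : ℕ) + 1)) * X j) ^ 4
      = ∑ k, C (1 : ℂ) * (∑ j, C (p k j) * X j) ^ 4 := by
    simp only [e1] at h
    rw [h]
    exact Finset.sum_congr rfl fun k _ => by rw [C_1, one_mul]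
  have h2 := congrArg (fun F : MvPolynomial (Fin n) ℂ =>
    pderiv ⟨a - 1, by omega⟩ (pderiv ⟨b - 1, by omega⟩ (pderiv ⟨c - 1, by omega⟩
      (pderiv (⟨d - 1, by omega⟩ : Fin n) F)))) h1
  rw [quad_sum (fun (r : Fin (2 * n + 2)) (j : Fin n) => ν j + (zt n ^ (r : ℕ)) ^ ((j : ℕ) + 1)) (cw n),
    quad_sum p (fun _ => 1), C_inj] at h2
  have h3 : ∑ r, cw n r * ((ν ⟨a - 1, by omega⟩ + (zt n ^ (r : ℕ)) ^ (a - 1 + 1)) *
      (ν ⟨b - 1, by omega⟩ + (zt n ^ (r : ℕ)) ^ (b - 1 + 1)) *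
      (ν ⟨c - 1, by omega⟩ + (zt n ^ (r : ℕ)) ^ (c - 1 + 1)) *
      (ν ⟨d - 1, by omega⟩ + (zt n ^ (r : ℕ)) ^ (d - 1 + 1)))
      = ∑ k, 1 * (p k ⟨a - 1, by omega⟩ * p k ⟨b - 1, by omega⟩ * p k ⟨c - 1, by omega⟩ *
        p k ⟨d - 1, by omega⟩) := mul_left_cancel₀ (by norm_num) h2
  have h4 : (wp (ext ν) a * wp (ext ν) b * wp (ext ν) c * wp (ext ν) d).natDegree < 4 * n + 3 := by
    refine lt_of_le_of_lt (Polynomial.natDegree_mul_le.trans (Nat.add_le_add_right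
      (Polynomial.natDegree_mul_le.trans (Nat.add_le_add_right
        Polynomial.natDegree_mul_le _)) _)) ?_
    rw [wp_natDegree _ ha1, wp_natDegree _ hb1, wp_natDegree _ hc1, wp_natDegree _ hd1]
    omega
  rw [← cw_poly n _ h4]
  show ∑ k, ext (p k) a * ext (p k) b * ext (p k) c * ext (p k) d = _
  have h5 : ∑ k, ext (p k) a * ext (p k) b * ext (p k) c * ext (p k) d
      = ∑ k, 1 * (p k ⟨a - 1, by omega⟩ * p k ⟨b - 1, by omega⟩ * p k ⟨c - 1, by omega⟩ *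
        p k ⟨d - 1, by omega⟩) := by
    apply Finset.sum_congr rfl
    intro k _
    rw [ext_of _ ha1 ha, ext_of _ hb1 hb, ext_of _ hc1 hc, ext_of _ hd1 hd, one_mul]
  rw [h5, ← h3]
  apply Finset.sum_congr rfl
  intro r _
  unfold wp
  simp only [Polynomial.eval_mul, Polynomial.eval_add, Polynomial.eval_pow, Polynomial.eval_X,
    Polynomial.eval_C]
  rw [ext_of _ ha1 ha, ext_of _ hb1 hb, ext_of _ hc1 hc, ext_of _ hd1 hd,
    Nat.sub_add_cancel ha1, Nat.sub_add_cancel hb1, Nat.sub_add_cancel hc1,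
    Nat.sub_add_cancel hd1]
  ring

theorem quart_lower (n : ℕ) (hn : 4 ≤ n) (v : MvPolynomial (Fin n) ℂ) (hv : v.IsHomogeneous 1)
    (m : ℕ) (hm : IsPowerSum 4 m (fq n + v * gq n)) : 2 * n - 1 ≤ m := by
  by_contra hlt
  obtain ⟨ν, rfl⟩ := lin_repr v hv
  obtain ⟨L, hL, hsum⟩ := hm
  choose p hp using fun k => lin_repr (L k) (hL k)
  have h1 : fq n + (∑ j, C (ν j) * X j) * gq n = ∑ k, (∑ j, C (p k j) * X j) ^ 4 := by
    rw [hsum]
    exact Finset.sum_congr rfl fun k _ => by rw [← hp k]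
  exact no_family hn (mom_of ν p h1) (fun i => ext_zero (p i)) (by omega)

lemma zt_moment (n : ℕ) : ∑ r, cw n r * (zt n ^ (r : ℕ)) ^ (2 * n + 1) = 1 := by
  rw [cw_sum_lt n _ (by omega), if_pos rfl]

lemma fq_ne_zero (n : ℕ) (hn : 4 ≤ n) : fq n ≠ 0 := by
  intro h
  have h2 := congrArg (fun F : MvPolynomial (Fin n) ℂ =>
    pderiv ⟨0, by omega⟩ (pderiv ⟨0, by omega⟩ (pderiv ⟨n - 2, by omega⟩
      (pderiv (⟨n - 1, by omega⟩ : Fin n) F)))) h
  simp only [map_zero] at h2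
  unfold fq Yf at h2
  rw [quad_sum (fun (r : Fin (2 * n + 2)) (j : Fin n) => (zt n ^ (r : ℕ)) ^ ((j : ℕ) + 1)) (cw n),
    C_eq_zero] at h2
  rcases mul_eq_zero.1 h2 with h3 | h3
  · norm_num at h3
  · have h4 := zt_moment n
    rw [← Finset.sum_congr rfl fun r _ => ?_] at h4
    · exact one_ne_zero (h4.symm.trans h3)
    · simp only
      rw [← pow_add, ← pow_add, ← pow_add]
      congr 2
      omega

lemma gq_ne_zero (n : ℕ) (hn : 4 ≤ n) : gq n ≠ 0 := by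
  intro h
  have h1 : (∑ r, C (cw n r) * Yf n (fun j => X j) r ^ 3 : MvPolynomial (Fin n) ℂ) = 0 := by
    unfold gq at h
    rcases mul_eq_zero.1 h with h3 | h3
    · norm_num at h3
    · exact h3
  have h2 := congrArg (fun F : MvPolynomial (Fin n) ℂ =>
    pderiv ⟨0, by omega⟩ (pderiv ⟨n - 1, by omega⟩
      (pderiv (⟨n - 1, by omega⟩ : Fin n) F))) h1
  simp only [map_zero] at h2
  unfold Yf at h2
  rw [map_sum, map_sum, map_sum] at h2
  have h3 : ∀ r : Fin (2 * n + 2), pderiv (⟨0, by omega⟩ : Fin n) (pderiv (⟨n - 1, by omega⟩ : Fin n)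
      (pderiv (⟨n - 1, by omega⟩ : Fin n)
        (C (cw n r) * (∑ j : Fin n, C ((zt n ^ (r : ℕ)) ^ ((j : ℕ) + 1)) * X j) ^ 3)))
      = C (6 * cw n r * (zt n ^ (r : ℕ)) ^ (2 * n + 1)) := by
    intro r
    rw [tri_pderiv (fun j : Fin n => (zt n ^ (r : ℕ)) ^ ((j : ℕ) + 1))]
    congr 2
    rw [← pow_add, ← pow_add]
    congr 1
    simp only
    omega
  rw [Finset.sum_congr rfl fun r _ => h3 r, ← map_sum, C_eq_zero] at h2
  have h4 : ∑ r, 6 * cw n r * (zt n ^ (r : ℕ)) ^ (2 * n + 1)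
      = 6 * ∑ r, cw n r * (zt n ^ (r : ℕ)) ^ (2 * n + 1) := by
    rw [Finset.mul_sum]
    exact Finset.sum_congr rfl fun r _ => by ring
  rw [h4, zt_moment] at h2
  norm_num at h2

end Pool.Agent.KS6_2.WR
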