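import Pool.Agent.KS6_2.WR.Two

/-!
Waring rank with values in `ℕ∞` and the universal bound.
-/

namespace Pool.Agent.KS6_2.WR

open MvPolynomial

/-- The Waring rank of the form `F` of degree `d`: the least `w` such that `F` is a sum of `w`
many `d`-th powers of linear forms (`⊤` if there is none). -/
noncomputable def WR {σ : Type} (d : ℕ) (F : MvPolynomial σ ℂ) : ℕ∞ :=
  ⨅ w : {w : ℕ // IsPowerSum d w F}, (w.1 : ℕ∞)

/-- The minimum of the Waring ranks of the forms `f + v g` of degree `d`, `v` running over the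
linear forms (the zero form included) in the variables of `f` and `g`. -/
noncomputable def minWR {n : ℕ} (d : ℕ) (f g : MvPolynomial (Fin n) ℂ) : ℕ∞ :=
  ⨅ v : {v : MvPolynomial (Fin n) ℂ // v.IsHomogeneous 1}, WR d (f + v.1 * g)

lemma WR_le {σ : Type} {d w : ℕ} {F : MvPolynomial σ ℂ} (h : IsPowerSum d w F) :
    WR d F ≤ w := iInf_le_of_le ⟨w, h⟩ le_rfl

lemma le_WR {σ : Type} {d : ℕ} {F : MvPolynomial σ ℂ} {c : ℕ∞}
    (h : ∀ w, IsPowerSum d w F → c ≤ w) : c ≤ WR d F := le_iInf fun w => h w.1 w.2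

lemma minWR_le {n : ℕ} {d w : ℕ} {f g v : MvPolynomial (Fin n) ℂ} (hv : v.IsHomogeneous 1)
    (h : IsPowerSum d w (f + v * g)) : minWR d f g ≤ w :=
  iInf_le_of_le ⟨v, hv⟩ (WR_le h)

lemma le_minWR {n : ℕ} {d : ℕ} {f g : MvPolynomial (Fin n) ℂ} {c : ℕ∞}
    (h : ∀ v : MvPolynomial (Fin n) ℂ, v.IsHomogeneous 1 → ∀ w, IsPowerSum d w (f + v * g) →
      c ≤ w) : c ≤ minWR d f g := le_iInf fun v => le_WR (h v.1 v.2)

theorem universal {n d : ℕ} (hd : 2 ≤ d) (f g : MvPolynomial (Fin n) ℂ) (hg : g ≠ 0) :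
    2 + minWR d f g ≤ WR d (adjoin f g) := by
  refine le_WR fun w hw => ?_
  obtain ⟨v, hv, w', hw', h⟩ := two_step hd f g hg hw
  calc 2 + minWR d f g ≤ 2 + (w' : ℕ∞) := by gcongr; exact minWR_le hv h
    _ = ((w' + 2 : ℕ) : ℕ∞) := by push_cast; ring
    _ ≤ w := by exact_mod_cast hw'

end Pool.Agent.KS6_2.WR
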