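import Mathlib

/-!
The universal bound: the rank of `f + u g` is at least `2` plus the least rank of `f + v g`.
-/

namespace Pool.Agent.KS6_2.WR

open MvPolynomial Finset

/-- `F` is a sum of `w` many `d`-th powers of linear forms (homogeneous polynomials of
degree `1`, the zero form included). -/
def IsPowerSum {σ : Type} (d w : ℕ) (F : MvPolynomial σ ℂ) : Prop :=
  ∃ L : Fin w → MvPolynomial σ ℂ, (∀ i, (L i).IsHomogeneous 1) ∧ F = ∑ i, (L i) ^ d

/-- The polynomial `f + u g` in `n + 1` variables, the new variable `u` being the last one. -/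
noncomputable def adjoin {n : ℕ} (f g : MvPolynomial (Fin n) ℂ) : MvPolynomial (Fin (n + 1)) ℂ :=
  rename Fin.castSucc f + X (Fin.last n) * rename Fin.castSucc g

lemma powerSum_of_finset {σ ι : Type} (d : ℕ) (s : Finset ι) (M : ι → MvPolynomial σ ℂ)
    (hM : ∀ i ∈ s, (M i).IsHomogeneous 1) : IsPowerSum d s.card (∑ i ∈ s, M i ^ d) := by
  refine ⟨fun k => M (s.equivFin.symm k), fun k => hM _ (s.equivFin.symm k).2, ?_⟩
  rw [← Finset.sum_coe_sort s (fun i => M i ^ d)]
  exact (Equiv.sum_comp s.equivFin.symm (fun i : s => M i ^ d)).symm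

/-- linear forms as sums -/
lemma lin_repr {n : ℕ} (L : MvPolynomial (Fin n) ℂ) (hL : L.IsHomogeneous 1) :
    ∃ c : Fin n → ℂ, L = ∑ i, C (c i) * X i := by
  have h : L ∈ homogeneousSubmodule (Fin n) ℂ 1 := hL
  rw [homogeneousSubmodule_one_eq_span_X] at h
  obtain ⟨c, hc⟩ := (Submodule.mem_span_range_iff_exists_fun ℂ).1 h
  refine ⟨c, ?_⟩
  rw [← hc]
  exact Finset.sum_congr rfl fun i _ => smul_eq_C_mul _ _

lemma lin_homog {σ : Type} {n : ℕ} (c : Fin n → ℂ) (y : Fin n → MvPolynomial σ ℂ)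
    (hy : ∀ i, (y i).IsHomogeneous 1) : (∑ i, C (c i) * y i).IsHomogeneous 1 := by
  refine IsHomogeneous.sum _ _ _ fun i _ => ?_
  have := (isHomogeneous_C σ (c i)).mul (hy i)
  simpa using this

lemma C_mul_homog {σ : Type} (c : ℂ) {L : MvPolynomial σ ℂ} (hL : L.IsHomogeneous 1) :
    (C c * L).IsHomogeneous 1 := by
  have := (isHomogeneous_C σ c).mul hL
  simpa using this

lemma lin_split {n : ℕ} (L : MvPolynomial (Fin (n + 1)) ℂ) (hL : L.IsHomogeneous 1) :
    ∃ (L' : MvPolynomial (Fin n) ℂ) (c : ℂ), L'.IsHomogeneous 1 ∧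
      L = rename Fin.castSucc L' + C c * X (Fin.last n) := by
  obtain ⟨c, rfl⟩ := lin_repr L hL
  refine ⟨∑ i : Fin n, C (c i.castSucc) * X i, c (Fin.last n),
    lin_homog _ _ fun i => isHomogeneous_X _ _, ?_⟩
  rw [Fin.sum_univ_castSucc, map_sum]
  simp only [map_mul, rename_C, rename_X]

/-- substitution of `v` for the last variable -/
noncomputable def sub {n : ℕ} (v : MvPolynomial (Fin n) ℂ) :
    MvPolynomial (Fin (n + 1)) ℂ →ₐ[ℂ] MvPolynomial (Fin n) ℂ :=
  aeval (Fin.snoc (α := fun _ => MvPolynomial (Fin n) ℂ) (fun i : Fin n => X i) v)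

lemma sub_last {n : ℕ} (v : MvPolynomial (Fin n) ℂ) : sub v (X (Fin.last n)) = v := by
  unfold sub
  rw [aeval_X, Fin.snoc_last]

lemma sub_rename {n : ℕ} (v p : MvPolynomial (Fin n) ℂ) : sub v (rename Fin.castSucc p) = p := by
  unfold sub
  rw [aeval_rename]
  have : (Fin.snoc (α := fun _ => MvPolynomial (Fin n) ℂ) (fun i : Fin n => X i) v) ∘ Fin.castSucc
      = fun i : Fin n => (X i : MvPolynomial (Fin n) ℂ) := by
    funext i
    simp [Function.comp]
  rw [this, aeval_X_left_apply]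

lemma sub_adjoin {n : ℕ} (v f g : MvPolynomial (Fin n) ℂ) : sub v (adjoin f g) = f + v * g := by
  unfold adjoin
  rw [map_add, map_mul, sub_rename, sub_rename, sub_last]

lemma pderiv_rename_last {n : ℕ} (p : MvPolynomial (Fin n) ℂ) :
    pderiv (Fin.last n) (rename Fin.castSucc p) = 0 := by
  induction p using MvPolynomial.induction_on with
  | C a => rw [rename_C, pderiv_C]
  | add p q hp hq => rw [map_add, map_add, hp, hq, add_zero]
  | mul_X p i hp =>
    rw [map_mul, rename_X, Derivation.leibniz, hp, pderiv_X_of_ne (Fin.castSucc_lt_last i).ne]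
    simp

lemma pderiv_adjoin {n : ℕ} (f g : MvPolynomial (Fin n) ℂ) :
    pderiv (Fin.last n) (adjoin f g) = rename Fin.castSucc g := by
  unfold adjoin
  rw [map_add, pderiv_rename_last, Derivation.leibniz, pderiv_rename_last, pderiv_X_self]
  simp

/-- The key step. -/
theorem two_step {n d w : ℕ} (hd : 2 ≤ d) (f g : MvPolynomial (Fin n) ℂ) (hg : g ≠ 0)
    (h : IsPowerSum d w (adjoin f g)) :
    ∃ v : MvPolynomial (Fin n) ℂ, v.IsHomogeneous 1 ∧ ∃ w', w' + 2 ≤ w ∧
      IsPowerSum d w' (f + v * g) := by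
  obtain ⟨L, hL, hsum⟩ := h
  choose L' c hL' hLc using fun i => lin_split (L i) (hL i)
  have hder1 : ∀ i, pderiv (Fin.last n) (L i) = C (c i) := by
    intro i
    rw [hLc i, map_add, pderiv_rename_last, Derivation.leibniz, pderiv_C, pderiv_X_self]
    simp
  obtain ⟨e, rfl⟩ : ∃ e, d = e + 2 := ⟨d - 2, by omega⟩
  have hg1 : rename Fin.castSucc g = ∑ i, C (c i) * (((e + 2 : ℕ) : MvPolynomial (Fin (n + 1)) ℂ)
      * L i ^ (e + 1)) := by
    rw [← pderiv_adjoin f g, hsum, map_sum]
    apply Finset.sum_congr rfl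
    intro i _
    rw [Derivation.leibniz_pow, hder1, show e + 2 - 1 = e + 1 by omega]
    simp only [nsmul_eq_mul, smul_eq_mul]
    ring
  have hg2 : ∑ i, C (c i ^ 2) * (((e + 2 : ℕ) : MvPolynomial (Fin (n + 1)) ℂ)
      * ((e + 1 : ℕ) : MvPolynomial (Fin (n + 1)) ℂ) * L i ^ e) = 0 := by
    have h1 : pderiv (Fin.last n) (rename Fin.castSucc g) = 0 := pderiv_rename_last g
    rw [hg1, map_sum] at h1
    rw [← h1]
    apply Finset.sum_congr rfl
    intro i _
    rw [Derivation.leibniz, pderiv_C, Derivation.leibniz, Derivation.leibniz_pow, hder1,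
      Derivation.map_natCast, show e + 1 - 1 = e by omega]
    simp only [nsmul_eq_mul, smul_eq_mul, mul_zero, add_zero, C_pow]
    ring
  -- two indices
  have hex1 : ∃ i, c i ≠ 0 := by
    by_contra hcon
    push Not at hcon
    apply hg
    apply rename_injective _ (Fin.castSucc_injective n)
    rw [map_zero, hg1]
    apply Finset.sum_eq_zero
    intro i _
    rw [hcon i, C_0, zero_mul]
  obtain ⟨i, hi⟩ := hex1
  have hex2 : ∃ j, j ≠ i ∧ c j ≠ 0 := by
    by_contra hcon
    push Not at hcon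
    rw [Finset.sum_eq_single i] at hg2
    · have hLi : L i ≠ 0 := by
        intro h0
        have := hder1 i
        rw [h0, map_zero] at this
        exact hi (C_eq_zero.1 this.symm)
      have h2 : (C (c i ^ 2) : MvPolynomial (Fin (n + 1)) ℂ) ≠ 0 := by
        rw [Ne, C_eq_zero]; exact pow_ne_zero _ hi
      have h3 : (((e + 2 : ℕ) : MvPolynomial (Fin (n + 1)) ℂ)) ≠ 0 :=
        Nat.cast_ne_zero.2 (by omega)
      have h4 : (((e + 1 : ℕ) : MvPolynomial (Fin (n + 1)) ℂ)) ≠ 0 :=
        Nat.cast_ne_zero.2 (by omega)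
      exact mul_ne_zero h2 (mul_ne_zero (mul_ne_zero h3 h4) (pow_ne_zero _ hLi)) hg2
    · intro j _ hj
      rw [hcon j hj]
      simp
    · intro h0
      exact absurd (Finset.mem_univ i) h0
  obtain ⟨j, hji, hj⟩ := hex2
  -- a root of `-1`
  obtain ⟨ζ, hζ, hne⟩ : ∃ ζ : ℂ, ζ ^ (e + 2) = -1 ∧ c i - ζ * c j ≠ 0 := by
    obtain ⟨ζ, hζ⟩ := IsAlgClosed.exists_pow_nat_eq (-1 : ℂ) (n := e + 2) (by omega)
    by_cases h0 : c i - ζ * c j = 0
    · have hω := Complex.isPrimitiveRoot_exp (e + 2) (by omega)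
      set ω := Complex.exp (2 * Real.pi * Complex.I / (e + 2 : ℕ)) with hωdef
      refine ⟨ω * ζ, by rw [mul_pow, hω.pow_eq_one, one_mul, hζ], ?_⟩
      intro h1
      have h2 : (ω - 1) * (ζ * c j) = 0 := by linear_combination h0 - h1
      rcases mul_eq_zero.1 h2 with h3 | h3
      · exact hω.ne_one (by omega) (by linear_combination h3)
      · rcases mul_eq_zero.1 h3 with h4 | h4
        · rw [h4, zero_pow (by omega)] at hζ
          norm_num at hζ
        · exact hj h4
    · exact ⟨ζ, hζ, h0⟩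
  set v : MvPolynomial (Fin n) ℂ := C ((c i - ζ * c j)⁻¹) * (C ζ * L' j - L' i) with hv
  have hvh : v.IsHomogeneous 1 := C_mul_homog _ ((C_mul_homog _ (hL' j)).sub (hL' i))
  have hrel : L' i + C (c i) * v = C ζ * (L' j + C (c j) * v) := by
    have h1 : (C (c i - ζ * c j) : MvPolynomial (Fin n) ℂ) * C ((c i - ζ * c j)⁻¹) = 1 := by
      rw [← C_mul, mul_inv_cancel₀ hne, C_1]
    have h2 : C (c i - ζ * c j) * v = C ζ * L' j - L' i := by
      rw [hv, ← mul_assoc, h1, one_mul]
    rw [C_sub, C_mul] at h2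
    linear_combination h2
  refine ⟨v, hvh, w - 2, ?_, ?_⟩
  · have : ({i, j} : Finset (Fin w)).card ≤ w := by
      have := Finset.card_le_univ ({i, j} : Finset (Fin w))
      simpa using this
    rw [Finset.card_pair (Ne.symm hji)] at this
    omega
  · have hval : f + v * g = ∑ k, (L' k + C (c k) * v) ^ (e + 2) := by
      rw [← sub_adjoin v f g, hsum, map_sum]
      apply Finset.sum_congr rfl
      intro k _
      rw [map_pow, hLc k, map_add, map_mul, sub_rename, sub_last]
      congr 2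
      rw [show (C (c k) : MvPolynomial (Fin (n + 1)) ℂ) = algebraMap ℂ _ (c k) from rfl,
        AlgHom.commutes]
      rfl
    have hcard : (Finset.univ \ {i, j} : Finset (Fin w)).card = w - 2 := by
      rw [Finset.card_sdiff_of_subset (Finset.subset_univ _), Finset.card_pair (Ne.symm hji),
        Finset.card_univ, Fintype.card_fin]
    rw [← hcard, hval, ← Finset.sum_sdiff (Finset.subset_univ ({i, j} : Finset (Fin w))),
      Finset.sum_pair (Ne.symm hji), hrel, mul_pow, ← C_pow, hζ]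
    have h0 : (C (-1 : ℂ) : MvPolynomial (Fin n) ℂ) = -1 := by rw [C_neg, C_1]
    rw [h0]
    have h1 : -1 * (L' j + C (c j) * v) ^ (e + 2) + (L' j + C (c j) * v) ^ (e + 2) = 0 := by ring
    rw [h1, add_zero]
    exact powerSum_of_finset _ _ _ fun k _ => (hL' k).add (C_mul_homog _ hvh)

end Pool.Agent.KS6_2.WR
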